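import Pool.Agent.L7h5.SP.Asm

/-!
# The Stark–Tate conjecture over real quadratic fields: removing primes from `S`

All fields are subfields of an algebraic closure `Qbar` of `ℚ`, and `GQ` is the group of its
automorphisms.  `F` is a real quadratic field, `ι : Qbar → ℂ` gives the real place `∞₁` of `F`, and `H`
is a finite abelian extension of `F`, real for `ι`.

* `StarkReal0 ι F H 𝔣 art` is the rank one abelian Stark conjecture, in Tate's refined form, for `H/F`,
  the set `S` of the two real places and the primes dividing `𝔣`, and the place `∞₁`.
* `Generate F H' 𝔣 art Ps`: the elements of `Ps` are primes not dividing `𝔣`, and their Frobenius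
  automorphisms generate the Galois group of `H'/F`.
* `Conj ι F X`: the conjecture over `F` for all pairs `(H, S)` with the property `X`.

(1) (`EvenStep`) Let `H'` be an extension of `H` of even degree, abelian over `F` and real for `ι`.  If the
conjecture holds for `H'` and `S ∪ {P}` for all `P` in `Ps`, then it holds for `H` and `S`
(two of the primes in `Ps` have multiplicatively independent norms: `TwoIndependent`).
(2) (`OddStep`) Let `H₀` be a subextension of odd index.  If the conjecture holds for `H₀` and `S`, and for `H` and
`S ∪ {P}` for all `P` in `Ps`, then it holds for `H` and `S`.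
(3) For every `N`: if the conjecture holds whenever `S` contains the primes above `2` and at least `N`
prime ideals, then it holds whenever `S` contains the primes above `2`.
(4) For every `N`: if the conjecture holds whenever `S` contains at least `N` prime ideals, and whenever
the degree of `H/F` is a power of two and `S` does not contain all primes above `2`, then it holds.

Let `x(σ) = exp (-2 ζ_S'(0, σ))`.  The conjecture for `S ∪ {P}` gives units with abelian square roots
equal to `x(1) / x(φ)` for all `φ` in the Galois group.  For the complex conjugation `τ` above `∞₂` this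
is `x(1) ^ 2`; so `x ^ α` is such a unit for all `α` in the group ring with even augmentation, for
example for the norm from `H'` to `H`.
-/

set_option autoImplicit false

namespace Pool.Agent.Results.MP_1ef7cf_nt.RemovingPrimes

open NumberField Module IntermediateField
open Pool.Agent.K4H33.SK (Qbar)
open Pool.Agent.K4H33.SK.Stmt (Sub)
open Pool.Agent.L7h5.SP

theorem result (ι : Qbar →+* ℂ) (F : Sub) [NumberField F] (hF : finrank ℚ F = 2) :
    EvenStep ι F ∧ OddStep ι F ∧
    (∀ N : ℕ, Conj ι F (fun _ 𝔣 => AboveTwo F 𝔣 ∧ ManyPrimes F N 𝔣) →
      Conj ι F (fun _ 𝔣 => AboveTwo F 𝔣)) ∧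
    (∀ N : ℕ, Conj ι F (fun _ 𝔣 => ManyPrimes F N 𝔣) →
      Conj ι F (fun H 𝔣 => TwoPower F H ∧ ¬ AboveTwo F 𝔣) → Conj ι F (fun _ _ => True)) :=
  ⟨evenStep ι F hF, oddStep ι F hF, fun _ => sIterTwo hF, fun _ => sIterAll hF⟩

end Pool.Agent.Results.MP_1ef7cf_nt.RemovingPrimes
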