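import Pool.Agent.L7h10.RQ.MainB

/-!
# The Stark–Tate conjecture over real quadratic fields when `H₊` is abelian over `ℚ`

`Qbar` is an algebraic closure of `ℚ` and `ι : Qbar → ℂ` an embedding.  All fields are subfields of
`Qbar`, and Galois groups are described by the automorphisms `GQ` of `Qbar`.

* `F` is a real quadratic field and `H` a finite abelian extension of `F`, real for `ι` (so that the
  real place `∞₁` of `F` given by `ι` splits completely in `H`).
* The maximal totally real subfield of `H` is contained in the `f`-th cyclotomic field (that is, it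
  is abelian over `ℚ`), and `H` is unramified over `ℚ` outside `f`.
* `𝔣` is any nonzero ideal of `F` divisible by all primes above `f`; the set `S` consists of the two
  infinite places and of the primes dividing `𝔣`.
* `StarkTheorem ι` is Stark's theorem: the rank one abelian Stark conjecture for all finite abelian
  extensions of all imaginary quadratic fields.

The conclusion `StarkReal ι F H 𝔣 art` is the rank one abelian Stark conjecture, in Tate's refined
form, for `H/F`, `S` and `∞₁`: there is a unit `ε` of `H` with `σ ε = exp (-2 ζ_S'(0, σ))` for all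
`σ ∈ Gal(H/F)`, of absolute value one at all places above `∞₂`, and such that `H(ε^(1/2))` is
abelian over `F`.
-/

set_option autoImplicit false

namespace Pool.Agent.Results.MP_1ef7cf_nt.ShintaniCase

open NumberField Module IntermediateField
open Pool.Agent.K4H33.SK (Qbar GQ)
open Pool.Agent.K4H33.SK.Stmt (Sub Ideals IsArtin PrimesOver)
open Pool.Agent.L7h10.RQ (IsAbelian UnramifiedQ StarkTheorem StarkReal)

theorem result (ι : Qbar →+* ℂ) (hStark : StarkTheorem ι) (F H : Sub) [NumberField F]
    (hF : finrank ℚ F = 2) (hab : IsAbelian F H) (hreal : ∀ x ∈ H, (ι x).im = 0)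
    (f : ℕ) (hf : 2 ≤ f) (ζ : Qbar) (hζ : IsPrimitiveRoot ζ f)
    (hplus : ∀ x ∈ H, (∀ w : Qbar →+* ℂ, (w x).im = 0) → x ∈ ℚ⟮ζ⟯) (hur : UnramifiedQ H f)
    (𝔣 : Ideals F) (h𝔣 : PrimesOver F f 𝔣) (art : Ideals F → GQ) (hart : IsArtin F H 𝔣 art) :
    StarkReal ι F H 𝔣 art :=
  Pool.Agent.L7h10.RQ.main ι hStark F H hF hab hreal f hf ζ hζ hplus hur 𝔣 h𝔣 art hart

end Pool.Agent.Results.MP_1ef7cf_nt.ShintaniCase
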