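import Pool.Agent.L7h62.SQ.All3

/-!
# The square-root clause of the Stark-Tate conjecture over real quadratic fields

`K` is a real quadratic field with real embeddings `φ₁`, `φ₂`, `H/K` a finite abelian extension
with group `G`, `e : H → ℝ` a real embedding above `φ₁` (so that `∞₁` is unramified in `H`) and
`c ∈ G` the complex conjugation above `φ₂` (`IsConj`); `Plus c` is the fixed field `H⁺` of `c`.  This
covers the ray class fields `H = H_{𝔪∞₂}` of the problem; then `H⁺ = H_𝔪` and `G/⟨c⟩ = Cl_𝔪`.

* `StarkLike φ₂ e u`: `u` is a unit of `H`, positive at all embeddings `e ∘ σ` above `φ₁`, of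
  absolute value one at all embeddings above `φ₂`.
* `StarkUnits φ₂ e Z ε`: the units `ε σ` satisfy conditions 1-3 of the problem with arbitrary real
  numbers `Z σ` in the place of `ζ'(0, σ)`.
* `RootAbelian K u`: every field generated over `H` by a square root of `u` is Galois with abelian
  group over `K`.

`Cases φ₁ e c` is one of the following three conditions, each of which implies that `H(√u)/K` is
abelian for every Stark-like unit `u`, so that the clause on square roots in Q1 is a consequence of
Stark`(K, 𝔪)`:

* (i) `K` has odd narrow class number, `[H : K]` is a power of two and at most one finite prime of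
  `K` is ramified in `H` (or the more general condition `OnePrime`);
* (ii) `H⁺` has odd narrow class number, `G` fixes the primes of `H⁺` which are ramified in `H`
  (`StableRam`), and the 2-part of `G/⟨c⟩` is cyclic (`CyclicMod`);
* (iii) the 2-part of `G/⟨c⟩` is cyclic and the signs of the units of `H` satisfy
  `SignCondition` (for instance `H` has odd narrow class number).

`CyclicIndex c u`, condition (iv): `G` is cyclic of order `n`, a power of two, `c ≠ 1`, and `u`
satisfies the index formula `4 [U⁻ : ⟨-1, σ u⟩] = h⁻ e₁ 2^(n/2) E` with `h⁻ = h(H)/h(H⁺)`,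
`U⁻` the units inverted by `c`, `e₁ = [U⁻ : {v / c(v)}]`, and `E` even or some prime of `H` ramified
over `H⁺`.  For the units of Stark`(K, 𝔪)` this follows from the analytic class number formulas of
`H` and `H⁺` (not part of the formal proof), with `E` the product of the numbers `1 - χ(𝔮)` over the
characters `χ` with `χ(c) = -1` and the primes `𝔮` dividing `𝔪` and unramified in `H`.
-/

set_option autoImplicit false

namespace Pool.Agent.Results.MP_1ef7cf_nt.SquareRootClause

open Module NumberField IsDedekindDomain
open Pool.Agent.L7h62.SQ (IsUnt IsConj StarkLike StarkUnits RootAbelian Cases CyclicIndex)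

theorem result (K H : Type) [Field K] [NumberField K] [Field H] [NumberField H] [Algebra K H]
    [IsAbelianGalois K H] (hK : finrank ℚ K = 2) (φ₁ φ₂ : K →+* ℝ) (hφ : φ₁ ≠ φ₂)
    (e : H →+* ℝ) (he : ∀ x, e (algebraMap K H x) = φ₁ x)
    (c : H ≃ₐ[K] H) (hc : IsConj φ₂ c) :
    (∀ u : H, StarkLike (K := K) φ₂ e u → (Cases φ₁ e c ∨ CyclicIndex c u) → RootAbelian K u ∧
      ∀ σ : H ≃ₐ[K] H, ∃ a : H, IsUnt a ∧ a ^ 2 * u = σ u) ∧
    ∀ (Z : (H ≃ₐ[K] H) → ℝ) (ε : (H ≃ₐ[K] H) → H), StarkUnits φ₂ e Z ε →
      (Cases φ₁ e c ∨ CyclicIndex c (ε 1)) → ∀ σ, RootAbelian K (ε σ) :=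
  Pool.Agent.L7h62.SQ.mainAll6 K H hK φ₁ φ₂ hφ e he c hc

end Pool.Agent.Results.MP_1ef7cf_nt.SquareRootClause
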