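import Pool.Agent.L7h5.SP.FinM

/-!
# The Stark–Tate conjecture over real quadratic fields: the `q`-parts and cyclic Sylow subgroups

All fields are subfields of an algebraic closure `Qbar` of `ℚ`, and `GQ` is the group of its
automorphisms.  `F` is a number field, `ι : Qbar → ℂ` an embedding, `H` a finite abelian extension
of `F`.

* `StarkPow ι F H 𝔣 art n`: the rank one abelian Stark conjecture, in Tate's refined form, for `H/F`, the
  set `S` of the infinite places and of the primes dividing `𝔣`, and the place of `F` given by `ι`, up to
  the power `n`: there is a unit `ε` of `H` with `σ ε = exp (-2 n ζ_S'(0, σ))`, of absolute value `1` above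
  the other infinite places, and with `H(√ε)/F` abelian.  `StarkReal0` is the case `n = 1`.
* `StarkPart ι F H 𝔣 art q`, the `q`-part of the conjecture: it holds up to a power prime to `q`.
* `NonCyclic F H ℓ`: the Galois group of `H/F` contains a subgroup isomorphic to `(ℤ/ℓ)²`.
* `CyclicOutside F H q`: its Sylow subgroups for the primes other than `q` are cyclic.
* `Conj ι F X` and `ConjPart ι F q X`: the conjecture and its `q`-part over `F` for all pairs `(H, S)` with
  the property `X`, `H` real for `ι`.

(1) (`LinesStep`) If the Galois group of `H/F` contains `(ℤ/ℓ)²` and the conjecture holds for all proper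
subextensions of `H/F`, then it holds for `H/F` up to the power `ℓ`.
(2) (`SylowStep`) If the `q`-part holds for all subextensions of `H/F` with cyclic Sylow subgroups for the
primes other than `q`, then it holds for `H/F`.

Let `F` be real quadratic, and `N` any number.
(3) Let `q` be odd.  The `q`-part of the conjecture for all `(H, S)` follows from the case that the Sylow
subgroups for the primes other than `q` are cyclic and `S` contains at least `N` prime ideals.
(4) The conjecture for all `(H, S)` such that `S` contains the primes above `2` follows from its `q`-parts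
for those `(H, S)` such that the Sylow subgroups for the primes other than `q` are cyclic and `S` contains
the primes above `2` and at least `N` prime ideals.
(5) The conjecture for all `(H, S)` follows from its `q`-parts as in (3) for all primes `q`, and its
`2`-part for those `(H, S)` such that the degree of `H/F` is a power of two, `S` contains less than `N`
prime ideals and not all primes above `2`, and `H` has no extension of even degree which is abelian over
`F`, real for `ι` and unramified outside `S` (`TwoMaximal`): for every such set `S` this is only one
field `H`.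

The parts were done by the seats named in the imported files: helper5, helper23, helper25, helper29,
helper40, helper61, helper77, helper79, helper93; `Pool.Agent.L7h10` is by helper10.
-/

set_option autoImplicit false

namespace Pool.Agent.Results.MP_1ef7cf_nt.SylowParts

open NumberField Module IntermediateField
open Pool.Agent.K4H33.SK (Qbar)
open Pool.Agent.K4H33.SK.Stmt (Sub)
open Pool.Agent.L7h5.SP
open Pool.Agent.L7h5.SP.PW

theorem result (ι : Qbar →+* ℂ) (F : Sub) [NumberField F] :
    LinesStep ι F ∧ SylowStep ι F ∧
    (finrank ℚ F = 2 → ∀ N : ℕ,
      (∀ q : ℕ, q.Prime → q ≠ 2 →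
        ConjPart ι F q (fun H 𝔣 => CyclicOutside F H q ∧ ManyPrimes F N 𝔣) →
        ConjPart ι F q (fun _ _ => True)) ∧
      ((∀ q : ℕ, q.Prime →
          ConjPart ι F q (fun H 𝔣 => CyclicOutside F H q ∧ AboveTwo F 𝔣 ∧ ManyPrimes F N 𝔣)) →
        Conj ι F (fun _ 𝔣 => AboveTwo F 𝔣)) ∧
      ((∀ q : ℕ, q.Prime →
          ConjPart ι F q (fun H 𝔣 => CyclicOutside F H q ∧ ManyPrimes F N 𝔣)) →
        ConjPart ι F 2 (fun H 𝔣 => TwoPower F H ∧ TwoMaximal ι F H 𝔣 ∧ ¬ AboveTwo F 𝔣 ∧
          ¬ ManyPrimes F N 𝔣) →
        Conj ι F (fun _ _ => True))) :=
  ⟨linesStep ι F, sylowStep ι F, fun hF N => ⟨fun _ hq hq2 => main_odd sSQ hF hq hq2 (N := N),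
    main_two sSQ Pool.Agent.L7h25.SP.s_GLUE hF (N := N),
    final_conj hF (N := N)⟩⟩

end Pool.Agent.Results.MP_1ef7cf_nt.SylowParts
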